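import Pool.Agent.NSN.NetAll

/-!
# Good initial data for the 3D Navier-Stokes system form a net of the viscous size in a critical space

For every `K` there is a constant `C` with the following property.  Let `Ω ⊆ ℝ³` be bounded and open and let `Ω' ⊆ Ω`
be contained in a ball of radius `K r`, where the `r`-neighbourhood of `Ω'` is in `Ω` (every compactly contained part of
`Ω` is such an `Ω'`).  Let `v` be a regular solution with force `f` and viscosity `η` (for instance `v = 0` if `f = 0`).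
Then for every `l ∈ V'`, however large, and every `ε > 0` there is a smooth initial datum `u(0)` with a regular solution
`u`, `ε`-close to `v` after the time `ε`, such that `|(u(0), φ) - l(φ)| ≤ C η ∫ |∇φ| + ε ‖φ‖` for all `φ ∈ V` supported
in `Ω'`.  The constant `C` does not depend on `l`, `η`, `f`, `v`, and the first term is the norm of the critical space
`W^{-1,∞}`.
-/

open MeasureTheory Set Filter Topology
open scoped RealInnerProductSpace ContDiff

namespace Pool.Agent.Results.MP_fd8964_an.CriticalNet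

open Pool.Agent.NSDS Pool.Agent.NSKS

theorem result (K : ℝ) (hK : 0 < K) : ∃ C : ℝ, 0 < C ∧
    ∀ (Ω : Set R3), IsOpen Ω → Bornology.IsBounded Ω →
    ∀ (Ω' : Set R3) (z : R3) (r : ℝ), 0 < r → Ω' ⊆ Metric.ball z (K * r) → (∀ y ∈ Ω', Metric.ball y r ⊆ Ω) →
    ∀ (η : ℝ), 0 < η → ∀ (f : ℝ → (V Ω →L[ℝ] ℝ)), AdmissibleForce Ω f →
    ∀ (J : Set ℝ), (J = Ici 0 ∨ ∃ T : ℝ, 0 < T ∧ J = Icc 0 T) →
    ∀ (v : ℝ → V Ω), ((f = 0 ∧ v = 0) ∨ (IsSmooth (v 0) ∧ IsRegularOn Ω η J f v)) →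
    ∀ (l : V Ω →L[ℝ] ℝ) (ε : ℝ), 0 < ε →
      ∃ u : ℝ → V Ω, IsSmooth (u 0) ∧ IsRegularOn Ω η J f u ∧
        (∀ φ : V Ω, (∀ᵐ y ∂(volume.restrict Ω), y ∉ Ω' → gfn (grd φ) y = 0) →
          |⟪fld (u 0), fld φ⟫ - l φ| ≤ C * η * (∫ y in Ω, ‖gfn (grd φ) y‖) + ε * ‖φ‖) ∧
        ∀ t ∈ J, ε ≤ t → ‖u t - v t‖ ≤ ε := by
  obtain ⟨C, hC, h⟩ := Pool.Agent.NSNT.absN_all K hK
  exact ⟨C, hC, fun Ω hΩ hb Ω' z r hr h1 h2 => h Ω hΩ hb Ω' z r hr h1 h2⟩

end Pool.Agent.Results.MP_fd8964_an.CriticalNet
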