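import Pool.Agent.NSL.TransferR

/-!
# Density of good initial data for the 3D Navier-Stokes system with Dirichlet conditions

`Ω ⊆ ℝ³` is any bounded open set, `η > 0` the viscosity, `f` any admissible force and `J = [0,∞)` or `J = [0,T]`.
Let `v` be a regular solution on `J` with `v(0) ∈ 𝒱` (for instance `v = 0` if `f = 0`).  Let `l ∈ V'` be of any size, let
`U ⊆ Ω` be open (the empty set and `Ω` are allowed) and let `0 < p < 1`.  Let `g` be any field in `L^p(Ω)` which is smooth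
and divergence free on `U`, and `Γ` any matrix field of trace zero in `L^p(Ω ∖ U)`; these are unrelated to `l` and to each
other.  Let `ψ` be any gauge with `ψ(s) = o(s²)` as `s → 0`.  Then there are initial data `u(0) ∈ 𝒱` which have a regular
solution on `J`, `ε`-close to `v` in `V` after the time `ε`, such that

* `u(0) = g` and `∇u(0) = ∇g` on `U` off a set of measure at most `ε`;
* `∫_Ω |u(0) - g|^p ≤ ε` and `∫_{Ω ∖ U} |∇u(0) - Γ|^p ≤ ε`;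
* `u(0)` is close to `l`, uniformly on the compact subsets of `V`, and `u(0) = y + w` with `y` close to `l` in the norm
  of `V'` and `∫₀^∞ ψ(√t ‖e^{tΔ}w‖_∞) dt/t ≤ ε`: for `ψ(s) = s^q`, `q > 2`, this says that `w` is small in the critical
  space `B^{-1}_{∞,q}(ℝ³)`; the exponent `2` is the end point.
-/

open MeasureTheory Set Filter Topology
open scoped RealInnerProductSpace ContDiff

namespace Pool.Agent.Results.MP_fd8964_an.DualDensity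

open Pool.Agent.NSDS Pool.Agent.NSKS Pool.Agent.NSBS

theorem result (Ω : Set R3) (hΩ : IsOpen Ω) (hb : Bornology.IsBounded Ω) (η : ℝ) (hη : 0 < η)
    (f : ℝ → (V Ω →L[ℝ] ℝ)) (hf : AdmissibleForce Ω f)
    (J : Set ℝ) (hJ : J = Ici 0 ∨ ∃ T : ℝ, 0 < T ∧ J = Icc 0 T)
    (v : ℝ → V Ω) (hv : (f = 0 ∧ v = 0) ∨ (IsSmooth (v 0) ∧ IsRegularOn Ω η J f v))
    (l : V Ω →L[ℝ] ℝ) (U : Set R3) (hU : IsOpen U) (hUΩ : U ⊆ Ω)
    (p : ℝ) (hp0 : 0 < p) (hp1 : p < 1)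
    (g : R3 → R3) (hg : MemLp g (ENNReal.ofReal p) (volume.restrict Ω)) (hgU : ContDiffOn ℝ ∞ g U)
    (hdiv : ∀ x ∈ U, divField g x = 0)
    (Γ : R3 → G3) (hΓ : MemLp Γ (ENNReal.ofReal p) (volume.restrict (Ω \ U)))
    (htr : ∀ᵐ x ∂(volume.restrict (Ω \ U)), ∑ i : Fin 3, coord (row (Γ x) i) i = 0)
    (ψ : ENNReal → ENNReal)
    (hψ : ∀ c : ℝ, 0 < c → ∃ r : ℝ, 0 < r ∧ ∀ s : ENNReal, s ≤ ENNReal.ofReal r → ψ s ≤ ENNReal.ofReal c * s ^ 2)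
    (K : Set (V Ω)) (ε : ℝ) (hK : IsCompact K) (hε : 0 < ε) :
    ∃ u : ℝ → V Ω, IsSmooth (u 0) ∧ IsRegularOn Ω η J f u ∧
      volume {x | x ∈ U ∧ (fn (fld (u 0)) x ≠ g x ∨ gfn (grd (u 0)) x ≠ gradField g x)} ≤ ENNReal.ofReal ε ∧
      ∫⁻ x in Ω, ‖fn (fld (u 0)) x - g x‖ₑ ^ p ≤ ENNReal.ofReal ε ∧
      ∫⁻ x in Ω \ U, ‖gfn (grd (u 0)) x - Γ x‖ₑ ^ p ≤ ENNReal.ofReal ε ∧
      (∀ φ ∈ K, |⟪fld (u 0), fld φ⟫ - l φ| < ε) ∧
      (∃ y : V Ω, (∀ φ : V Ω, |⟪fld y, fld φ⟫ - l φ| ≤ ε * ‖φ‖) ∧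
        ∫⁻ t in Ioi (0 : ℝ), ψ (⨆ x : R3, ENNReal.ofReal (√t * ‖heatExt (u 0 - y) t x‖)) * ENNReal.ofReal (1 / t)
          ≤ ENNReal.ofReal ε) ∧
      ∀ t ∈ J, ε ≤ t → ‖u t - v t‖ ≤ ε :=
  Pool.Agent.NSLT.absDR_all Ω hΩ hb η hη f hf J hJ v hv l U g Γ p ⟨hU, hUΩ, hgU, hdiv, hp0, hp1, hg, hΓ, htr⟩
    K ψ ε hK hψ hε

end Pool.Agent.Results.MP_fd8964_an.DualDensity
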