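import Pool.Agent.NSV.All
import Pool.Agent.NSV.TransferV

/-!
# Vibrating forces for the 3D Navier-Stokes system with Dirichlet conditions

`Ω ⊆ ℝ³` is any bounded open set, `η > 0` the viscosity, `(u₀,f)` any admissible data, `w` any continuous path in `H`,
and `δ(t) > 0` any continuous tolerance.  There is a smooth field `Φ(t,x)`, with values in `𝒱`, zero near `t = 0`, arbitrarily
small in the Lorentz space `L^{2,2q}(0,∞;C^k)` (`q > 1` and `k` arbitrary), nonzero only on a set of times of measure `≤ ε`,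
such that the system with initial value `u₀` and force `f + ∂ₜΦ` has a regular solution `u` on `[0,∞)`, and
`‖u(t) - Φ(t) - w(t)‖_{L²} ≤ δ(t)` for `t ≥ ε`.
-/

open MeasureTheory Set Filter Topology
open scoped RealInnerProductSpace ContDiff

namespace Pool.Agent.Results.MP_fd8964_an.VibratingForce

open Pool.Agent.NSDS Pool.Agent.NSVS

theorem result (Ω : Set R3) (hΩ : IsOpen Ω) (hb : Bornology.IsBounded Ω) (η : ℝ) (hη : 0 < η)
    (u₀ : V Ω) (hu₀ : MemH2 u₀) (f : ℝ → (V Ω →L[ℝ] ℝ)) (hf : AdmissibleForce Ω f)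
    (w : ℝ → L2E Ω) (hw : ∀ t, 0 ≤ t → w t ∈ H Ω) (hwc : ContinuousOn w (Ici 0))
    (δ : ℝ → ℝ) (hδc : ContinuousOn δ (Ici 0)) (hδ : ∀ t, 0 ≤ t → 0 < δ t)
    (k : ℕ) (q ε : ℝ) (hq : 1 < q) (hε : 0 < ε) :
    ∃ (Φ : ℝ → R3 → R3) (g : ℝ → (V Ω →L[ℝ] ℝ)) (u : ℝ → V Ω), IsVib Ω Φ ∧
      lorentz k q Φ ≤ ENNReal.ofReal ε ∧ suppVol Φ ≤ ENNReal.ofReal ε ∧
      AdmissibleForce Ω g ∧ (∀ t, 0 ≤ t → ∀ v : V Ω, g t v = f t v + pairDt Φ t v) ∧
      IsRegularSolution Ω η u₀ g u ∧ ∀ t, ε ≤ t → dist2 (u t) (Φ t) (w t) ≤ δ t :=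
  Pool.Agent.NSVT.absV_sealed Pool.Agent.NSV.mainV_all Ω hΩ hb η hη u₀ hu₀ f hf w hw hwc δ hδc hδ k q ε hq hε

end Pool.Agent.Results.MP_fd8964_an.VibratingForce
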